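import Pool.Agent.Helper97_WHC.Stmt
import Pool.Agent.Helper2_WHT.PAR

/-!
# Squad WHC, row PAP: powers of a positive kernel
-/

set_option autoImplicit false

open scoped BigOperators

namespace Pool.Agent.WHC.H87

open Pool.Agent.DEN Pool.Agent.TMP Pool.Agent.WHT Pool.Agent.WHT.H2

/-- nonnegative real numbers in the complex numbers -/
def NN (z : ℂ) : Prop := z = (‖z‖ : ℂ)

theorem nn_iff (z : ℂ) : NN z ↔ ∃ a : ℝ, 0 ≤ a ∧ z = (a : ℂ) := by
  constructor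
  · intro h
    exact ⟨‖z‖, norm_nonneg z, h⟩
  · rintro ⟨a, ha, rfl⟩
    show (a : ℂ) = ((‖(a : ℂ)‖ : ℝ) : ℂ)
    rw [Complex.norm_real, Real.norm_eq_abs, abs_of_nonneg ha]

theorem nn_zero : NN 0 := (nn_iff 0).2 ⟨0, le_rfl, by simp⟩

theorem nn_one : NN 1 := (nn_iff 1).2 ⟨1, zero_le_one, by simp⟩

theorem nn_add {z w : ℂ} (hz : NN z) (hw : NN w) : NN (z + w) := by
  obtain ⟨a, ha, rfl⟩ := (nn_iff z).1 hz
  obtain ⟨b, hb, rfl⟩ := (nn_iff w).1 hw
  exact (nn_iff _).2 ⟨a + b, add_nonneg ha hb, by push_cast; rfl⟩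

theorem nn_mul {z w : ℂ} (hz : NN z) (hw : NN w) : NN (z * w) := by
  obtain ⟨a, ha, rfl⟩ := (nn_iff z).1 hz
  obtain ⟨b, hb, rfl⟩ := (nn_iff w).1 hw
  exact (nn_iff _).2 ⟨a * b, mul_nonneg ha hb, by push_cast; rfl⟩

theorem nn_finsum {α : Sort*} (f : α → ℂ) (h : ∀ x, NN (f x)) : NN (∑ᶠ x, f x) :=
  finsum_induction NN nn_zero (fun _ _ => nn_add) h

theorem nn_kpow {r : ℕ} {C : Matrix (Fin r) (Fin r) ℤ} {K : Type} [Field K]
    (k : XX C K → XX C K → ℂ) (hp : ∀ x y, NN (k x y)) (s : ℕ) : ∀ x y, NN (kpow k s x y) := by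
  classical
  induction s with
  | zero =>
    intro x y
    show NN (kone x y)
    unfold kone
    split_ifs
    · exact nn_one
    · exact nn_zero
  | succ s ih =>
    intro x y
    show NN (∑ᶠ z, k x z * kpow k s z y)
    exact nn_finsum _ fun z => nn_mul (hp x z) (ih z y)

theorem nn_sat {r : ℕ} {C : Matrix (Fin r) (Fin r) ℤ} (hC : SimplyLaced C) {K : Type} [Field K]
    (k : XX C K → XX C K → ℂ) (hp : ∀ x y, NN (k x y)) (l : Fin r → ℤ) : NN (sat hC k l) := by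
  refine nn_mul ?_ ?_
  · refine (nn_iff _).2 ⟨(Nat.card K : ℝ) ^ hv l, by positivity, ?_⟩
    push_cast
    rfl
  · show NN (∑ᶠ y ∈ Hor hC K l, k (oo C K) y)
    exact nn_finsum _ fun y => nn_finsum _ fun _ => hp _ _

theorem sum_norm {α : Type} (f : α → ℂ) (h : ∀ x, NN (f x)) (hf : {x | f x ≠ 0}.Finite) :
    ∑ᶠ x, ‖f x‖ = ‖∑ᶠ x, f x‖ := by
  have h1 : ∑ᶠ x, f x = ∑ x ∈ hf.toFinset, f x := by
    refine finsum_eq_sum_of_support_subset _ ?_
    intro x hx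
    rw [Finset.mem_coe, Set.Finite.mem_toFinset]
    exact hx
  have h2 : ∑ᶠ x, ‖f x‖ = ∑ x ∈ hf.toFinset, ‖f x‖ := by
    refine finsum_eq_sum_of_support_subset _ ?_
    intro x hx
    rw [Finset.mem_coe, Set.Finite.mem_toFinset]
    exact norm_ne_zero_iff.1 hx
  have h3 : ∑ x ∈ hf.toFinset, f x = ((∑ x ∈ hf.toFinset, ‖f x‖ : ℝ) : ℂ) := by
    push_cast
    exact Finset.sum_congr rfl fun x _ => h x
  rw [h1, h2, h3, Complex.norm_real, Real.norm_eq_abs,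
    abs_of_nonneg (Finset.sum_nonneg fun x _ => norm_nonneg _)]

/-- row PAP -/
theorem pap : PapStmt := by
  intro r C hC K _ _ k τ R hk hτ hn hR hp s
  have hk2 := kpow_ker hC hk
  have hps : ∀ x y, NN (kpow k s x y) := nn_kpow k hp s
  refine ⟨kpow k s, hk2 s, kpow_rad hC hk2 hR s, hps, ?_, fun f lam h => kpow_eig hk hk2 f lam h s⟩
  have hfin := (Pool.Agent.TMP.hSmu r C hC K).1 _ (hk2 s)
  have e1 : ∑ᶠ l, sat hC (kpow k s) l = (∑ᶠ l, sat hC k l) ^ s := by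
    have h := kpow_sat hC hk (fun _ => 1) (fun _ _ => (one_mul 1).symm) rfl s
    simpa only [mul_one] using h
  have e2 : ‖∑ᶠ l, sat hC k l‖ ≤ τ := by
    have h := (Pool.Agent.TMP.hFla r C hC K k hk).2 τ hτ hn (fun _ => 1)
      (fun _ _ => (one_mul 1).symm) (fun _ => norm_one)
    simpa only [mul_one] using h
  rw [sum_norm _ (nn_sat hC _ hps) hfin, e1, norm_pow]
  exact pow_le_pow_left₀ (norm_nonneg _) e2 s

end Pool.Agent.WHC.H87
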